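import Mathlib
import Pool.Agent.H2AD.Final
import Pool.Agent.H2AD.Nonad
import Pool.Agent.H2AD.Bt
import Pool.Agent.H2AD.Res
import Pool.Agent.H2AD.Cov
import Pool.Agent.H2AD.Deg

/-!
MP_f992e4_an. Quantum query algorithms with a bounded number of rounds of parallel queries: the
inequality of Q1 holds up to a power of a logarithm, with a power of the number of queries in place
of the power of the degree, and the algorithms can be approximated by decision trees.

The pieces of the proof were written together with helper12, helper32, helper69, helper79 and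
helper88; the library `Hp22AA` is by helper22.
-/

set_option autoImplicit false

namespace Pool.Agent.Results.MP_f992e4_an.BoundedAdaptivity

open Finset Pool.Agent.Hp22AAD Pool.Agent.H2AD

section log

open Pool.Agent.Hp22AA

variable {ι κ : Type} [Fintype ι] [DecidableEq ι] [Fintype κ] {T : ℕ}

theorem maxDer_le_one (A : Alg ι κ T) (M : Sp κ →L[ℂ] Sp κ) (hM : ‖M‖ ≤ 1) (r : ℕ) :
    maxDer (A.value M r) ≤ 1 := by
  refine Real.iSup_le (fun j => ?_) zero_le_one
  refine Real.sqrt_le_one.2 ?_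
  change av (fun x => dd j (A.value M r) x ^ 2) ≤ 1
  rw [← av_const (ι := ι) 1]
  refine av_mono fun x => ?_
  have h1 := abs_le.1 (value_le_one A M hM r (Function.update x j 1))
  have h2 := abs_le.1 (value_le_one A M hM r (Function.update x j (-1)))
  have h3 : |dd j (A.value M r) x| ≤ 1 := by
    unfold dd
    rw [abs_le]
    constructor <;> linarith [h1.1, h1.2, h2.1, h2.2]
  rw [← sq_abs]
  exact pow_le_one₀ (abs_nonneg _) h3

theorem log_form (A : Alg ι κ T) (M : Sp κ →L[ℂ] Sp κ) (hM : ‖M‖ ≤ 1) (r : ℕ) (hr : 1 ≤ r)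
    (hT : 1 ≤ T) (hpos : 0 < maxDer (A.value M r)) :
    variance (A.value M r) ≤
      3 * (16 * (2 + Real.log (1 / maxDer (A.value M r))) ^ 2 * (r : ℝ) ^ 6 * T) ^ (r + 1) *
        maxDer (A.value M r) := by
  have hμ1 := maxDer_le_one A M hM r
  set μ := maxDer (A.value M r) with hμ
  set l : ℝ := Real.log (1 / μ) with hl
  have hl0 : 0 ≤ l := Real.log_nonneg (by rw [le_div_iff₀ hpos]; linarith)
  obtain ⟨K, hK1, hKl, hKu⟩ : ∃ K : ℕ, 1 ≤ K ∧ l ≤ K ∧ (K : ℝ) + 1 ≤ 2 + l := by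
    rcases hl0.eq_or_lt with h | h
    · exact ⟨1, le_rfl, by rw [← h]; norm_num, by rw [← h]; norm_num⟩
    · refine ⟨⌈l⌉₊, Nat.ceil_pos.2 h, Nat.le_ceil l, ?_⟩
      have := Nat.ceil_lt_add_one hl0
      linarith
  have h1 := infl btmulti (fin (cov res btr) btsub) A M hM K r hK1 hr hT
  rw [← hμ] at h1
  have hr1 : (1 : ℝ) ≤ r := by exact_mod_cast hr
  have hT1 : (1 : ℝ) ≤ T := by exact_mod_cast hT
  set B : ℝ := 16 * ((K : ℝ) + 1) ^ 2 * (r : ℝ) ^ 6 * T with hB
  have hB0 : 0 ≤ B := by positivity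
  have h2 : μ ^ K ≤ (3 * μ) ^ (K + 1) := by
    have e1 : 1 / μ = Real.exp l := by rw [hl, Real.exp_log (by positivity)]
    have e2 : Real.exp l ≤ 3 ^ (K + 1) := by
      have e3 : Real.exp l ≤ Real.exp ((K + 1 : ℕ) : ℝ) := by
        apply Real.exp_le_exp.2
        push_cast
        linarith
      refine e3.trans ?_
      have e4 : Real.exp ((K + 1 : ℕ) : ℝ) = Real.exp 1 ^ (K + 1) := by
        rw [← Real.exp_nat_mul, mul_one]
      rw [e4]
      refine pow_le_pow_left₀ (Real.exp_pos _).le ?_ _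
      linarith [Real.exp_one_lt_d9]
    rw [mul_pow, pow_succ μ K]
    have e5 : 1 ≤ 3 ^ (K + 1) * μ := by
      rw [← e1, div_le_iff₀ hpos] at e2
      exact e2
    have e6 : 0 ≤ μ ^ K := by positivity
    nlinarith
  have h3 : variance (A.value M r) ^ (K + 1) ≤ (B ^ (r + 1) * (3 * μ)) ^ (K + 1) := by
    rw [mul_pow, ← pow_mul]
    exact h1.trans (mul_le_mul_of_nonneg_left h2 (by positivity))
  have h4 : variance (A.value M r) ≤ B ^ (r + 1) * (3 * μ) :=
    le_of_pow_le_pow_left₀ (by omega) (by positivity) h3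
  refine h4.trans ?_
  have h5 : B ≤ 16 * (2 + l) ^ 2 * (r : ℝ) ^ 6 * T := by
    rw [hB]
    have h6 : ((K : ℝ) + 1) ^ 2 ≤ (2 + l) ^ 2 := pow_le_pow_left₀ (by positivity) hKu 2
    gcongr
  have h6 := pow_le_pow_left₀ hB0 h5 (r + 1)
  have h7 : B ^ (r + 1) * (3 * μ) = 3 * B ^ (r + 1) * μ := by ring
  rw [h7]
  gcongr

end log

/-- **Quantum query algorithms with boundedly many rounds of parallel queries.** -/
theorem result :
    -- (1) one round of queries: a linear bound for the total influence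
    (∀ (ι κ : Type) [Fintype ι] [DecidableEq ι] [Fintype κ] (T : ℕ) (A : Alg ι κ T)
      (M : Sp κ →L[ℂ] Sp κ), ‖M‖ ≤ 1 →
      ∑ j, (∑ x : ι → ℤˣ, der j (A.value M 1) x ^ 2) / (2 : ℝ) ^ Fintype.card ι ≤
          8 * T * maxDer (A.value M 1) ∧
        variance (A.value M 1) ≤ 8 * T * maxDer (A.value M 1)) ∧
    -- (2) `r` rounds: an influential variable
    (∀ (ι κ : Type) [Fintype ι] [DecidableEq ι] [Fintype κ] (T : ℕ) (A : Alg ι κ T)
      (M : Sp κ →L[ℂ] Sp κ) (K r : ℕ), ‖M‖ ≤ 1 → 1 ≤ K → 1 ≤ r → 1 ≤ T →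
      variance (A.value M r) ^ (K + 1) ≤
        (16 * ((K : ℝ) + 1) ^ 2 * (r : ℝ) ^ 6 * T) ^ ((r + 1) * (K + 1)) *
          maxDer (A.value M r) ^ K) ∧
    -- (3) `r` rounds: the inequality of Q1 up to a power of a logarithm
    (∀ (ι κ : Type) [Fintype ι] [DecidableEq ι] [Fintype κ] (T : ℕ) (A : Alg ι κ T)
      (M : Sp κ →L[ℂ] Sp κ) (r : ℕ), ‖M‖ ≤ 1 → 1 ≤ r → 1 ≤ T → 0 < maxDer (A.value M r) →
      variance (A.value M r) ≤
        3 * (16 * (2 + Real.log (1 / maxDer (A.value M r))) ^ 2 * (r : ℝ) ^ 6 * T) ^ (r + 1) *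
          maxDer (A.value M r)) ∧
    -- (4) `r` rounds: approximation by decision trees
    (∀ (ι κ : Type) [Fintype ι] [DecidableEq ι] [Fintype κ] (T : ℕ) (A : Alg ι κ T)
      (M : Sp κ →L[ℂ] Sp κ) (K r : ℕ) (ε : ℝ), ‖M‖ ≤ 1 → 1 ≤ K → 1 ≤ r → 1 ≤ T → 0 < ε → ε ≤ 1 →
      ∃ (D : ℕ) (g : (ι → ℤˣ) → ℝ),
        (D : ℝ) ^ K * ε ^ (K + 1) ≤
          (16 * ((K : ℝ) + 1) ^ 2 * (r : ℝ) ^ 6 * T) ^ ((r + 2) * (K + 1)) ∧
        DT D g ∧ (∀ x, |g x| ≤ 1) ∧
        (∑ x : ι → ℤˣ, (A.value M r x - g x) ^ 2) / (2 : ℝ) ^ Fintype.card ι ≤ ε) ∧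
    -- (5) the value is a polynomial of degree at most `2 r T`
    (∀ (ι κ : Type) [Fintype ι] [DecidableEq ι] [Fintype κ] (T : ℕ) (A : Alg ι κ T)
      (M : Sp κ →L[ℂ] Sp κ) (r : ℕ), DegLE (A.value M r) (2 * r * T)) ∧
    -- (6) the acceptance probability is an example of a value
    (∀ (ι κ : Type) [Fintype κ] [DecidableEq κ] (T : ℕ) (A : Alg ι κ T) (S : Finset κ) (r : ℕ)
      (x : ι → ℤˣ), ‖dg (fun k => if k ∈ S then 1 else 0)‖ ≤ 1 ∧
      A.value (dg (fun k => if k ∈ S then 1 else 0)) r x = ∑ k ∈ S, ‖A.state r x k‖ ^ 2) := by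
  refine ⟨?_, ?_, ?_, ?_, deg, ?_⟩
  · intro ι κ _ _ _ T A M hM
    have h := nonad A M hM
    exact ⟨h, (Pool.Agent.Hp22AA.poincare _).trans h⟩
  · intro ι κ _ _ _ T A M K r hM hK hr hT
    exact infl btmulti (fin (cov res btr) btsub) A M hM K r hK hr hT
  · intro ι κ _ _ _ T A M r hM hr hT hpos
    exact log_form A M hM r hr hT hpos
  · intro ι κ _ _ _ T A M K r ε hM hK hr hT hε hε1
    exact trees btmulti btdt A M hM K r hK hr hT ε hε hε1
  · intro ι κ _ _ T A S r x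
    refine ⟨norm_dg_le _ 1 zero_le_one fun k => ?_, ?_⟩
    · split_ifs <;> simp
    · unfold Alg.value
      rw [inner_dg]
      simp only [ite_mul, one_mul, zero_mul]
      rw [Finset.sum_ite_mem, Finset.univ_inter]

end Pool.Agent.Results.MP_f992e4_an.BoundedAdaptivity
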