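import Mathlib
import Pool.Agent.Hp22AA.Hyper

/-!
MP_f992e4_an: the conjectured inequality for all functions with the symmetries of graphs,
hypergraphs and many-sorted relational structures of bounded arity.
The definitions are in `Pool/Agent/Hp22AA/Defs.lean`.
-/

set_option autoImplicit false

namespace Pool.Agent.Results.MP_f992e4_an.HypergraphSymmetries

open Pool.Agent.Hp22AAD

/-- First part: vertices `V` with sorts `τ`, the group of the sort preserving permutations acts by
`ρ` on the coordinates `ι`, each coordinate `i` has an equivariant set `supp i` of at most `r`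
vertices and is fixed by all permutations which fix these vertices, and there are at most `k`
orbits of coordinates. Second part: functions of `r`-uniform hypergraphs. -/
theorem result :
    (∀ (V T ι : Type) [Fintype V] [DecidableEq V] [DecidableEq T] [Fintype ι] [DecidableEq ι]
      (τ : V → T) (ρ : sortPerms τ →* Equiv.Perm ι) (supp : ι → Finset V) (r k : ℕ)
      (typ : ι → Fin k) (f : (ι → ℤˣ) → ℝ) (d : ℕ),
      (∀ (σ : sortPerms τ) i, supp (ρ σ i) = (supp i).image (σ : Equiv.Perm V)) →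
      (∀ (σ : sortPerms τ) i, (∀ v ∈ supp i, (σ : Equiv.Perm V) v = v) → ρ σ i = i) →
      (∀ i, (supp i).card ≤ r) →
      (∀ i j, typ i = typ j → ∃ σ : sortPerms τ, ρ σ i = j) →
      (∀ (σ : sortPerms τ) x, f (fun i => x (ρ σ i)) = f x) →
      DegLE f d →
        (∀ i x, |der i f x| ≤
          (∏ q ∈ supp i, 8 * ((r * d : ℕ) : ℝ) ^ 2 /
            ((Finset.univ.filter fun v => τ v = τ q).card : ℝ)) * supNorm f) ∧
        variance f ≤ k * (8 * ((r * d : ℕ) : ℝ) ^ 2) ^ r * supNorm f * maxDerOne f ∧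
        maxDerOne f ≤ maxDer f ∧
        variance f ≤ (d : ℝ) ^ (2 * r + k * (8 * r ^ 2) ^ r) * supNorm f * maxDer f) ∧
    (∀ (V : Type) [Fintype V] [DecidableEq V] (r : ℕ)
      (f : ({e : Finset V // e.card = r} → ℤˣ) → ℝ) (d : ℕ),
      (∀ (σ : Equiv.Perm V) x, f (fun e => x (edgeMap σ e)) = f x) → DegLE f d →
        (∀ e x, |der e f x| ≤
          (8 * ((r * d : ℕ) : ℝ) ^ 2 / Fintype.card V) ^ r * supNorm f) ∧
        variance f ≤ (8 * ((r * d : ℕ) : ℝ) ^ 2) ^ r * supNorm f * maxDerOne f ∧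
        maxDerOne f ≤ maxDer f) := by
  refine ⟨?_, ?_⟩
  · intro V T ι _ _ _ _ _ τ ρ supp r k typ f d h1 h2 hr htyp hf hd
    exact ⟨fun i x => Pool.Agent.Hp22AA.flat h1 h2 r hr f hf d hd i x,
      Pool.Agent.Hp22AA.var_bound h1 h2 r hr k typ htyp f hf d hd,
      Pool.Agent.Hp22AA.one_le_two f,
      Pool.Agent.Hp22AA.q1_form h1 h2 r hr k typ htyp f hf d hd⟩
  · intro V _ _ r f d hf hd
    exact ⟨(Pool.Agent.Hp22AA.hyper r f hf d hd).1, (Pool.Agent.Hp22AA.hyper r f hf d hd).2,
      Pool.Agent.Hp22AA.one_le_two f⟩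

end Pool.Agent.Results.MP_f992e4_an.HypergraphSymmetries
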