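import Mathlib
import Pool.Agent.Hp22AA.RidgeK

/-!
MP_f992e4_an: the conjectured inequality for polynomials of one linear form with arbitrary
weights, and of `k` linear forms in disjoint blocks of variables.
The definitions are in `Pool/Agent/Hp22AA/Defs.lean`.
-/

set_option autoImplicit false

namespace Pool.Agent.Results.MP_f992e4_an.LinearForms

open Pool.Agent.Hp22AAD Polynomial

/-- First part: `f(x) = p(∑ a_l x_l)`. Second part: for each block `t` and all values `z` of the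
variables outside the block, `f` is a polynomial `q` of the linear form `∑ a_l x_l` of the
block. In both parts the degree of the polynomial is at most the number of nonzero weights. -/
theorem result :
    (∀ (ι : Type) [Fintype ι] [DecidableEq ι] (a : ι → ℝ) (p : ℝ[X]) (f : (ι → ℤˣ) → ℝ) (d : ℕ),
      p.natDegree ≤ (Finset.univ.filter fun l => a l ≠ 0).card →
      (∀ x, f x = p.eval (∑ l, a l * ((x l : ℤ) : ℝ))) → DegLE f d →
        (∑ j, Real.sqrt ((∑ x : ι → ℤˣ, der j f x ^ 2) / (2 : ℝ) ^ Fintype.card ι) ≤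
          32 * (d : ℝ) ^ 3 * supNorm f) ∧
        variance f ≤ 32 * (d : ℝ) ^ 3 * supNorm f * maxDer f ∧
        variance f ≤ (d : ℝ) ^ 9 * supNorm f * maxDer f) ∧
    (∀ (ι : Type) [Fintype ι] [DecidableEq ι] (k : ℕ) (typ : ι → Fin k) (a : ι → ℝ)
      (f : (ι → ℤˣ) → ℝ) (d : ℕ),
      (∀ (t : Fin k) (z : ι → ℤˣ), ∃ q : ℝ[X],
        q.natDegree ≤ (Finset.univ.filter fun l => typ l = t ∧ a l ≠ 0).card ∧
        ∀ x : ι → ℤˣ, (∀ l, typ l ≠ t → x l = z l) →
          f x = q.eval (∑ l ∈ Finset.univ.filter (fun l => typ l = t), a l * ((x l : ℤ) : ℝ))) →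
      DegLE f d →
        (∑ j, Real.sqrt ((∑ x : ι → ℤˣ, der j f x ^ 2) / (2 : ℝ) ^ Fintype.card ι) ≤
          32 * k * (d : ℝ) ^ 3 * supNorm f) ∧
        variance f ≤ 32 * k * (d : ℝ) ^ 3 * supNorm f * maxDer f ∧
        variance f ≤ (d : ℝ) ^ (k + 8) * supNorm f * maxDer f) := by
  have h2 : ∀ (ι : Type) [Fintype ι] [DecidableEq ι] (k : ℕ) (typ : ι → Fin k) (a : ι → ℝ)
      (f : (ι → ℤˣ) → ℝ) (d : ℕ),
      (∀ (t : Fin k) (z : ι → ℤˣ), ∃ q : ℝ[X],
        q.natDegree ≤ (Finset.univ.filter fun l => typ l = t ∧ a l ≠ 0).card ∧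
        ∀ x : ι → ℤˣ, (∀ l, typ l ≠ t → x l = z l) →
          f x = q.eval (∑ l ∈ Finset.univ.filter (fun l => typ l = t), a l * ((x l : ℤ) : ℝ))) →
      DegLE f d →
        (∑ j, Real.sqrt ((∑ x : ι → ℤˣ, der j f x ^ 2) / (2 : ℝ) ^ Fintype.card ι) ≤
          32 * k * (d : ℝ) ^ 3 * supNorm f) ∧
        variance f ≤ 32 * k * (d : ℝ) ^ 3 * supNorm f * maxDer f ∧
        variance f ≤ (d : ℝ) ^ (k + 8) * supNorm f * maxDer f := by
    intro ι _ _ k typ a f d hf hd
    exact Pool.Agent.Hp22AA.blocks_var k typ a f hf d hd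
  refine ⟨?_, h2⟩
  intro ι _ _ a p f d hp hf hd
  have h := h2 ι 1 (fun _ => 0) a f d (by
    intro t z
    refine ⟨p, ?_, ?_⟩
    · refine hp.trans (Finset.card_le_card ?_)
      intro l hl
      exact Finset.mem_filter.2 ⟨Finset.mem_univ _, Subsingleton.elim _ _,
        (Finset.mem_filter.1 hl).2⟩
    · intro x _
      rw [hf x]
      congr 1
      rw [Finset.filter_true_of_mem fun l _ => Subsingleton.elim _ _]) hd
  simp only [Nat.cast_one, mul_one] at h
  exact h

end Pool.Agent.Results.MP_f992e4_an.LinearForms
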