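import Mathlib
import Pool.Agent.H72x.AA.Final

/-!
MP_f992e4_an: the conjectured inequality for the Fourier weight on the levels `1, …, 1 + K log d`
and for all functions whose total influence is at most `(1 + K log d)` times the variance.
The definitions are in `Pool/Agent/H72x/AA/Defs.lean`.
-/

set_option autoImplicit false

namespace Pool.Agent.Results.MP_f992e4_an.LowLevels

open Pool.Agent.H72x.AAD

/-- The weighted inequality, and the conjectured inequality for low levels and low energy. -/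
theorem result :
    (∀ n : ℕ, 1 ≤ n → ∀ f : (Fin n → ℤˣ) → ℝ, ∀ d : ℕ, DegLE f d →
      ∑ S : Finset (Fin n), (S.card : ℝ) * (1 / 3) ^ (S.card - 1) * coeff f S ^ 2 ≤
        2 * (d : ℝ) ^ 2 * supNorm f * maxDer f) ∧
    (∀ K : ℝ, 0 ≤ K → ∀ n : ℕ, 1 ≤ n → ∀ f : (Fin n → ℤˣ) → ℝ, ∀ d : ℕ, DegLE f d →
      ∑ S : Finset (Fin n) with 1 ≤ S.card ∧ (S.card : ℝ) ≤ 1 + K * Real.log d, coeff f S ^ 2 ≤
        supNorm f * (d : ℝ) ^ (3 + K * Real.log 3) * maxDer f) ∧
    (∀ K : ℝ, 0 ≤ K → ∀ n : ℕ, 1 ≤ n → ∀ f : (Fin n → ℤˣ) → ℝ, ∀ d : ℕ, DegLE f d →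
      ∑ j, infl f j ≤ (1 + K * Real.log d) * variance f →
        variance f ≤ supNorm f * (d : ℝ) ^ (3 + K * Real.log 3) * maxDer f) :=
  ⟨fun _ _ f d hd => weighted f d hd, fun K hK n _ f d hd => low_levels K hK n f d hd,
    fun K hK n _ f d hd hI => energy K hK n f d hd hI⟩

end Pool.Agent.Results.MP_f992e4_an.LowLevels
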